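import Pool.Agent.Lib.MP_3ee548_nt.RS.Iface

/-!
Module MAXA: sums over initial segments of a dyadic block are controlled by the dyadic sums.
-/

set_option autoImplicit false

open scoped BigOperators
open Finset

namespace Pool.Agent.Lib.MP_3ee548_nt.RS.H45

/-- Binary expansion, for an arbitrary summand. -/
lemma seg_le (z : ℕ → ℂ) (k : ℕ) (X : ℕ → ℝ) (hX0 : ∀ i, i ≤ k → 0 ≤ X i)
    (hX : ∀ i, i ≤ k → ∀ j, j < 2 ^ (k - i) →
      ‖∑ m ∈ Finset.Ico (2 ^ k + j * 2 ^ i) (2 ^ k + (j + 1) * 2 ^ i), z m‖ ≤ X i) :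
    ∀ l, l ≤ k → ∀ j, j < 2 ^ (k - l) → ∀ n, n < 2 ^ l →
      ‖∑ m ∈ Finset.Ico (2 ^ k + j * 2 ^ l) (2 ^ k + j * 2 ^ l + n), z m‖
        ≤ ∑ i ∈ Finset.range l, X i := by
  intro l
  induction l with
  | zero =>
    intro _ j _ n hn
    have : n = 0 := by simpa using hn
    subst this
    simp
  | succ l ih =>
    intro hl j hj n hn
    have hl' : l ≤ k := by omega
    have e1 : k - l = (k - (l + 1)) + 1 := by omega
    have hj0 : 2 * j < 2 ^ (k - l) := by rw [e1, pow_succ]; omega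
    have hj1 : 2 * j + 1 < 2 ^ (k - l) := by rw [e1, pow_succ]; omega
    have es : j * 2 ^ (l + 1) = (2 * j) * 2 ^ l := by rw [pow_succ]; ring
    rw [Finset.sum_range_succ, es]
    by_cases h : n < 2 ^ l
    · have := ih hl' (2 * j) hj0 n h
      have h0 := hX0 l hl'
      linarith
    · have h : 2 ^ l ≤ n := not_lt.1 h
      obtain ⟨r, rfl⟩ := Nat.exists_eq_add_of_le h
      have hr : r < 2 ^ l := by rw [pow_succ] at hn; omega
      have e2 : 2 ^ k + (2 * j + 1) * 2 ^ l = 2 ^ k + (2 * j) * 2 ^ l + 2 ^ l := by ring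
      have h1 := hX l hl' (2 * j) hj0
      have h2 := ih hl' (2 * j + 1) hj1 r hr
      rw [e2] at h1 h2
      have e3 : 2 ^ k + (2 * j) * 2 ^ l + (2 ^ l + r) = 2 ^ k + (2 * j) * 2 ^ l + 2 ^ l + r := by
        ring
      rw [e3, ← Finset.sum_Ico_consecutive z (Nat.le_add_right _ (2 ^ l)) (Nat.le_add_right _ r)]
      refine (norm_add_le _ _).trans ?_
      linarith

lemma inner_le_pow_aux (s : Finset ℕ) (X : ℕ → ℝ) (hX0 : ∀ i ∈ s, 0 ≤ X i) :
    (∑ i ∈ s, X i) ^ 4 ≤ (s.card : ℝ) ^ 3 * ∑ i ∈ s, X i ^ 4 := by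
  have h := pow_sum_div_card_le_sum_pow (n := 3) (s := s) (f := X) hX0
  rcases s.eq_empty_or_nonempty with rfl | hs
  · simp
  · have hc : (0 : ℝ) < (s.card : ℝ) ^ 3 := by
      have : 0 < s.card := hs.card_pos
      positivity
    rw [div_le_iff₀ hc, mul_comm] at h
    exact h

lemma inner_le_aux (k : ℕ) (X : ℕ → ℝ) (hX0 : ∀ i, i ≤ k → 0 ≤ X i) :
    (∑ i ∈ Finset.range (k + 1), X i) ^ 4 ≤
      ((k : ℝ) + 1) ^ 3 * ∑ i ∈ Finset.range (k + 1), X i ^ 4 := by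
  have h := inner_le_pow_aux (Finset.range (k + 1)) X
    (fun i hi => hX0 i (Nat.lt_succ_iff.1 (Finset.mem_range.1 hi)))
  rw [Finset.card_range] at h
  push_cast at h
  exact h

theorem maxa : MaxaStatement := by
  intro lam k n t hn
  set z : ℕ → ℂ := fun m => e (t * lam m) with hz
  set N : ℕ → ℕ → ℝ := fun i j =>
    ‖∑ m ∈ Finset.Ico (2 ^ k + j * 2 ^ i) (2 ^ k + (j + 1) * 2 ^ i), z m‖ with hN
  have hex : ∀ i, ∃ j ∈ Finset.range (2 ^ (k - i)), ∀ j' ∈ Finset.range (2 ^ (k - i)),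
      N i j' ≤ N i j := fun i =>
    Finset.exists_max_image _ (N i) ⟨0, Finset.mem_range.2 (by positivity)⟩
  choose J hJ hJm using hex
  set X : ℕ → ℝ := fun i => N i (J i) with hXd
  have hX0 : ∀ i, i ≤ k → 0 ≤ X i := fun i _ => norm_nonneg _
  have hX : ∀ i, i ≤ k → ∀ j, j < 2 ^ (k - i) → N i j ≤ X i := fun i _ j hj =>
    hJm i j (Finset.mem_range.2 hj)
  have hmain : ‖∑ m ∈ Finset.Ico (2 ^ k) (2 ^ k + n), z m‖ ≤ ∑ i ∈ Finset.range (k + 1), X i := by
    rw [Finset.sum_range_succ]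
    rcases Nat.lt_or_ge n (2 ^ k) with h | h
    · have h1 := seg_le z k X hX0 hX k le_rfl 0 (by simp) n h
      simp only [zero_mul, add_zero] at h1
      have := hX0 k le_rfl
      linarith
    · have hnk : n = 2 ^ k := le_antisymm hn h
      have h1 := hX k le_rfl 0 (by simp)
      simp only [hN, zero_mul, add_zero, zero_add, one_mul] at h1
      rw [hnk]
      have h2 : 0 ≤ ∑ i ∈ Finset.range k, X i :=
        Finset.sum_nonneg fun i hi => hX0 i (Finset.mem_range.1 hi).le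
      linarith
  have hpow : (∑ i ∈ Finset.range (k + 1), X i) ^ 4 ≤
      ((k : ℝ) + 1) ^ 3 * ∑ i ∈ Finset.range (k + 1), X i ^ 4 := by
    have h1 := inner_le_aux k X hX0
    exact h1
  have hlast : ∑ i ∈ Finset.range (k + 1), X i ^ 4 ≤
      ∑ i ∈ Finset.range (k + 1), ∑ j ∈ Finset.range (2 ^ (k - i)), N i j ^ 4 := by
    refine Finset.sum_le_sum fun i _ => ?_
    exact Finset.single_le_sum (f := fun j => N i j ^ 4) (fun j _ => by positivity) (hJ i)
  calc ‖∑ m ∈ Finset.Ico (2 ^ k) (2 ^ k + n), z m‖ ^ 4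
      ≤ (∑ i ∈ Finset.range (k + 1), X i) ^ 4 := pow_le_pow_left₀ (norm_nonneg _) hmain 4
    _ ≤ ((k : ℝ) + 1) ^ 3 * ∑ i ∈ Finset.range (k + 1), X i ^ 4 := hpow
    _ ≤ Bmax lam k t := by
        unfold Bmax
        exact mul_le_mul_of_nonneg_left hlast (by positivity)

end Pool.Agent.Lib.MP_3ee548_nt.RS.H45
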